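import Pool.Agent.L0h94.RZ.Defs

/-!
# RZ-EQ: primes with two prescribed symbols
-/

set_option autoImplicit false

namespace Pool.Agent.L0h93.RZ

open Finset Pool.Agent.W262.RK Pool.Agent.L0h94.RZ

/-- the symbol of a prime that is odd and does not divide `l` -/
lemma jac_nr (p : ℕ) (hp : p.Prime) (l : ℤ) (h : ¬ (p : ℤ) ∣ l) :
    ((jacobiSym l p : ℤ) : ℝ) = if nr p l = 1 then -1 else 1 := by
  have hp' : Fact p.Prime := ⟨hp⟩
  unfold nr
  have h1 : jacobiSym l p = 1 ∨ jacobiSym l p = -1 := by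
    rw [← jacobiSym.legendreSym.to_jacobiSym]
    apply legendreSym.eq_one_or_neg_one
    intro h2
    exact h ((ZMod.intCast_zmod_eq_zero_iff_dvd l p).1 h2)
  rcases h1 with h1 | h1
  · rw [h1]
    norm_num
  · rw [h1]
    norm_num

lemma Jr_prod (T : Finset ℕ) (hT : ∀ p ∈ T, p.Prime) (l : ℤ) (hl : ∀ p ∈ T, ¬ (p : ℤ) ∣ l) :
    Jr l (∏ p ∈ T, p) = if ∑ p ∈ T, nr p l = 1 then -1 else 1 := by
  classical
  induction T using Finset.induction_on with
  | empty =>
    simp [Jr]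
  | insert p T hp ih =>
    have h1 : Jr l (∏ q ∈ insert p T, q) = Jr l p * Jr l (∏ q ∈ T, q) := by
      unfold Jr
      have hp0 : NeZero p := ⟨(hT p (mem_insert_self _ _)).ne_zero⟩
      have hT0 : NeZero (∏ q ∈ T, q) :=
        ⟨prod_ne_zero_iff.2 fun q hq => (hT q (mem_insert_of_mem hq)).ne_zero⟩
      rw [prod_insert hp, jacobiSym.mul_right]
      push_cast
      rfl
    rw [h1, ih (fun q hq => hT q (mem_insert_of_mem hq)) (fun q hq => hl q (mem_insert_of_mem hq)),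
      sum_insert hp]
    have h2 : Jr l p = if nr p l = 1 then -1 else 1 :=
      jac_nr p (hT p (mem_insert_self _ _)) l (hl p (mem_insert_self _ _))
    rw [h2]
    generalize nr p l = a
    generalize ∑ q ∈ T, nr q l = b
    revert a b
    have h3 : ∀ a b : ZMod 2, (a = 1 ∧ b = 1 ∧ a + b ≠ 1) ∨ (a = 1 ∧ b ≠ 1 ∧ a + b = 1) ∨
        (a ≠ 1 ∧ b = 1 ∧ a + b = 1) ∨ (a ≠ 1 ∧ b ≠ 1 ∧ a + b ≠ 1) := by decide
    intro a b
    rcases h3 a b with ⟨h4, h5, h6⟩ | ⟨h4, h5, h6⟩ | ⟨h4, h5, h6⟩ | ⟨h4, h5, h6⟩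
    · rw [if_pos h4, if_pos h5, if_neg h6]
      norm_num
    · rw [if_pos h4, if_neg h5, if_pos h6]
      norm_num
    · rw [if_neg h4, if_pos h5, if_pos h6]
      norm_num
    · rw [if_neg h4, if_neg h5, if_neg h6]
      norm_num

/-- the indicator -/
lemma ind_two (x y : ZMod 2) : (if x = 1 ∧ y = 1 then (1 : ℝ) else 0) =
    (1 - (if x = 1 then (-1 : ℝ) else 1)) * (1 - (if y = 1 then (-1 : ℝ) else 1)) / 4 := by
  by_cases hx : x = 1
  · by_cases hy : y = 1
    · rw [if_pos ⟨hx, hy⟩, if_pos hx, if_pos hy]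
      norm_num
    · rw [if_neg (fun h => hy h.2), if_neg hy]
      norm_num
  · rw [if_neg (fun h => hx h.1), if_neg hx]
    norm_num

theorem eq_of (hL : S_EQL) (hW : S_EQW) : S_EQ := by
  intro η hη0 hη1 A
  obtain ⟨X1, hX1⟩ := hL η hη0 hη1
  obtain ⟨X2, hX2⟩ := hW η hη0 hη1 A
  refine ⟨max 1 (max X1 X2), fun X hX => ?_⟩
  have hXa : 1 ≤ X := le_trans (le_max_left _ _) hX
  have hXb : X1 ≤ X := le_trans (le_trans (le_max_left _ _) (le_max_right _ _)) hX
  have hXc : X2 ≤ X := le_trans (le_trans (le_max_right _ _) (le_max_right _ _)) hX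
  obtain ⟨hmass, hsw⟩ := hX2 X hXc
  have hX1' : (1 : ℝ) ≤ X := by exact_mod_cast hXa
  have hX0 : (0 : ℝ) < X := by linarith
  classical
  set D : Finset ℕ := (Icc 1 ⌊(X : ℝ) ^ (η / 4)⌋₊).filter (fun d => 1 < d ∧ Squarefree d ∧
    d.Coprime 6 ∧ 1 / 1000 < |∑ l ∈ rg X η, Jr l d / (l : ℝ)|) with hD
  have hDm : ∀ d, d ∈ D ↔ (d : ℝ) ≤ (X : ℝ) ^ (η / 4) ∧ 1 < d ∧ Squarefree d ∧
      d.Coprime 6 ∧ 1 / 1000 < |∑ l ∈ rg X η, Jr l d / (l : ℝ)| := by
    intro d
    rw [hD, mem_filter, mem_Icc]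
    constructor
    · rintro ⟨⟨-, h1⟩, h2⟩
      exact ⟨(Nat.le_floor_iff (by positivity)).1 h1, h2⟩
    · rintro ⟨h1, h2⟩
      exact ⟨⟨h2.1.le, (Nat.le_floor_iff (by positivity)).2 h1⟩, h2⟩
  refine ⟨D, fun e he => ?_, ?_, ?_⟩
  · obtain ⟨h1, h2, h3, h4, h5⟩ := (hDm e).1 he
    by_contra h6
    have := hsw e h2 h3 h4 (not_lt.1 h6)
    linarith
  · refine hX1 X hXb D fun d hd => ?_
    obtain ⟨h1, h2, h3, h4, h5⟩ := (hDm d).1 hd
    refine ⟨?_, h3, h1, h5⟩
    have h6 : d.Coprime 2 := Nat.Coprime.coprime_dvd_right (by norm_num) h4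
    exact Nat.coprime_two_right.1 h6
  · intro S hS hSX hcln T hT
    have hSp : ∀ p ∈ S, p.Prime := fun p hp => (hS p hp).1
    -- the primes of the range do not divide
    have hndvd : ∀ l ∈ rg X η, ∀ p ∈ S, ¬ (p : ℤ) ∣ (l : ℤ) := by
      intro l hl p hp hd
      unfold rg at hl
      rw [mem_filter, mem_Ioc] at hl
      have h1 : p ∣ l := Int.natCast_dvd_natCast.1 hd
      have h2 : p = l := (Nat.prime_dvd_prime_iff_eq (hSp p hp) hl.2.1).1 h1
      have h3 : (X : ℝ) ^ η < l := Nat.lt_of_floor_lt hl.1.1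
      have h4 : p ≤ ∏ q ∈ S, q := Nat.le_of_dvd (prod_pos fun q hq => (hSp q hq).pos)
        (dvd_prod_of_mem _ hp)
      have h5 : (p : ℝ) ≤ (X : ℝ) ^ (η / 4) :=
        le_trans (by exact_mod_cast h4) hSX
      have h6 : (X : ℝ) ^ (η / 4) ≤ (X : ℝ) ^ η :=
        Real.rpow_le_rpow_of_exponent_le hX1' (by linarith)
      rw [h2] at h5
      linarith
    -- the sum of the symbols for a nonempty subset
    have hsmall : ∀ U : Finset ℕ, U ⊆ S → U.Nonempty →
        |∑ l ∈ rg X η, Jr l (∏ p ∈ U, p) / (l : ℝ)| ≤ 1 / 1000 := by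
      intro U hU hU0
      by_contra h1
      rw [not_le] at h1
      have hdv : ∏ p ∈ U, p ∣ ∏ p ∈ S, p := prod_dvd_prod_of_subset _ _ _ hU
      have hpos : 0 < ∏ p ∈ S, p := prod_pos fun q hq => (hSp q hq).pos
      refine hcln (∏ p ∈ U, p) ((hDm _).2 ⟨?_, ?_, ?_, ?_, h1⟩) hdv
      · refine le_trans ?_ hSX
        exact_mod_cast Nat.le_of_dvd hpos hdv
      · obtain ⟨p, hp⟩ := hU0
        have h2 : p ∣ ∏ q ∈ U, q := dvd_prod_of_mem _ hp
        have h3 : 0 < ∏ q ∈ U, q := prod_pos fun q hq => (hSp q (hU hq)).pos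
        exact lt_of_lt_of_le (hSp p (hU hp)).one_lt (Nat.le_of_dvd h3 h2)
      · refine Finset.squarefree_prod_of_pairwise_isCoprime ?_
          (fun p hp => (hSp p (hU hp)).squarefree)
        intro p hp q hq hpq
        exact Nat.coprime_iff_isRelPrime.1
          ((Nat.coprime_primes (hSp p (hU hp)) (hSp q (hU hq))).2 hpq)
      · refine Nat.Coprime.prod_left fun p hp => ?_
        have h2 := (hS p (hU hp)).2
        have h3 : p.Coprime 2 := (Nat.coprime_primes (hSp p (hU hp)) Nat.prime_two).2 (by omega)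
        have h4 : p.Coprime 3 := (Nat.coprime_primes (hSp p (hU hp)) Nat.prime_three).2 (by omega)
        exact Nat.Coprime.mul_right h3 h4
    have hJ : ∀ U : Finset ℕ, U ⊆ S → ∀ l ∈ rg X η,
        Jr l (∏ p ∈ U, p) = if ∑ p ∈ U, nr p (l : ℤ) = 1 then -1 else 1 := fun U hU l hl =>
      Jr_prod U (fun p hp => hSp p (hU hp)) l (fun p hp => hndvd l hl p (hU hp))
    have hTf := hT false
    have hTt := hT true
    have hbd : ∀ l : ℕ, (∀ o, ∑ p ∈ T o, nr p (l : ℤ) = 1) ↔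
        (∑ p ∈ T false, nr p (l : ℤ) = 1 ∧ ∑ p ∈ T true, nr p (l : ℤ) = 1) := by
      intro l
      rw [Bool.forall_bool]
    have hsum : ∑ l ∈ (rg X η).filter (fun l : ℕ => ∀ o, ∑ p ∈ T o, nr p (l : ℤ) = 1),
        1 / (l : ℝ) = ∑ l ∈ rg X η, ((1 - Jr l (∏ p ∈ T false, p)) *
          (1 - Jr l (∏ p ∈ T true, p)) / 4) * (1 / (l : ℝ)) := by
      rw [sum_filter]
      refine sum_congr rfl fun l hl => ?_
      rw [hJ _ hTf.2 l hl, hJ _ hTt.2 l hl, ← ind_two]
      by_cases h : ∀ o, ∑ p ∈ T o, nr p (l : ℤ) = 1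
      · rw [if_pos h, if_pos ((hbd l).1 h), one_mul]
      · rw [if_neg h, if_neg (fun h1 => h ((hbd l).2 h1)), zero_mul]
    rw [hsum]
    have b1 := abs_le.1 (hsmall _ hTf.2 hTf.1)
    have b2 := abs_le.1 (hsmall _ hTt.2 hTt.1)
    by_cases heq : T false = T true
    · -- the same set
      have h1 : ∑ l ∈ rg X η, ((1 - Jr l (∏ p ∈ T false, p)) *
          (1 - Jr l (∏ p ∈ T true, p)) / 4) * (1 / (l : ℝ)) =
          (1 / 2) * (∑ l ∈ rg X η, 1 / (l : ℝ)) -
            (1 / 2) * ∑ l ∈ rg X η, Jr l (∏ p ∈ T false, p) / (l : ℝ) := by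
        rw [mul_sum, mul_sum, ← sum_sub_distrib]
        refine sum_congr rfl fun l hl => ?_
        rw [← heq, hJ _ hTf.2 l hl]
        split_ifs <;> ring
      rw [h1]
      linarith [b1.1, b1.2]
    · -- different sets
      have hne : ((T false \ T true) ∪ (T true \ T false)).Nonempty := by
        rw [nonempty_iff_ne_empty]
        intro h1
        rw [union_eq_empty, sdiff_eq_empty_iff_subset, sdiff_eq_empty_iff_subset] at h1
        exact heq (subset_antisymm h1.1 h1.2)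
      have hsub : (T false \ T true) ∪ (T true \ T false) ⊆ S :=
        union_subset (sdiff_subset.trans hTf.2) (sdiff_subset.trans hTt.2)
      have b3 := abs_le.1 (hsmall _ hsub hne)
      have hprod : ∀ l ∈ rg X η, Jr l (∏ p ∈ T false, p) * Jr l (∏ p ∈ T true, p) =
          Jr l (∏ p ∈ (T false \ T true) ∪ (T true \ T false), p) := by
        intro l hl
        rw [hJ _ hTf.2 l hl, hJ _ hTt.2 l hl, hJ _ hsub l hl]
        have e1 : ∑ p ∈ T false, nr p (l : ℤ) = ∑ p ∈ T false ∩ T true, nr p (l : ℤ) +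
            ∑ p ∈ T false \ T true, nr p (l : ℤ) := (sum_inter_add_sum_sdiff _ _ _).symm
        have e2 : ∑ p ∈ T true, nr p (l : ℤ) = ∑ p ∈ T false ∩ T true, nr p (l : ℤ) +
            ∑ p ∈ T true \ T false, nr p (l : ℤ) := by
          rw [inter_comm]
          exact (sum_inter_add_sum_sdiff _ _ _).symm
        have e3 : ∑ p ∈ (T false \ T true) ∪ (T true \ T false), nr p (l : ℤ) =
            ∑ p ∈ T false \ T true, nr p (l : ℤ) + ∑ p ∈ T true \ T false, nr p (l : ℤ) :=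
          sum_union disjoint_sdiff_sdiff
        rw [e1, e2, e3]
        generalize ∑ p ∈ T false ∩ T true, nr p (l : ℤ) = a
        generalize ∑ p ∈ T false \ T true, nr p (l : ℤ) = b
        generalize ∑ p ∈ T true \ T false, nr p (l : ℤ) = c
        have h3 : ∀ a b c : ZMod 2,
            (a + b = 1 ∧ a + c = 1 ∧ b + c ≠ 1) ∨ (a + b = 1 ∧ a + c ≠ 1 ∧ b + c = 1) ∨
            (a + b ≠ 1 ∧ a + c = 1 ∧ b + c = 1) ∨ (a + b ≠ 1 ∧ a + c ≠ 1 ∧ b + c ≠ 1) := by
          decide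
        rcases h3 a b c with ⟨h4, h5, h6⟩ | ⟨h4, h5, h6⟩ | ⟨h4, h5, h6⟩ | ⟨h4, h5, h6⟩
        · rw [if_pos h4, if_pos h5, if_neg h6]
          norm_num
        · rw [if_pos h4, if_neg h5, if_pos h6]
          norm_num
        · rw [if_neg h4, if_pos h5, if_pos h6]
          norm_num
        · rw [if_neg h4, if_neg h5, if_neg h6]
          norm_num
      have h1 : ∑ l ∈ rg X η, ((1 - Jr l (∏ p ∈ T false, p)) *
          (1 - Jr l (∏ p ∈ T true, p)) / 4) * (1 / (l : ℝ)) =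
          (1 / 4) * (∑ l ∈ rg X η, 1 / (l : ℝ)) -
            (1 / 4) * (∑ l ∈ rg X η, Jr l (∏ p ∈ T false, p) / (l : ℝ)) -
            (1 / 4) * (∑ l ∈ rg X η, Jr l (∏ p ∈ T true, p) / (l : ℝ)) +
            (1 / 4) * ∑ l ∈ rg X η, Jr l (∏ p ∈ (T false \ T true) ∪ (T true \ T false), p) /
              (l : ℝ) := by
        rw [mul_sum, mul_sum, mul_sum, mul_sum, ← sum_sub_distrib, ← sum_sub_distrib,
          ← sum_add_distrib]
        refine sum_congr rfl fun l hl => ?_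
        rw [← hprod l hl]
        ring
      rw [h1]
      linarith [b1.1, b1.2, b2.1, b2.2, b3.1, b3.2]

end Pool.Agent.L0h93.RZ
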