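import Pool.Agent.L0h94.RZ.Defs
import Pool.Agent.L0h94.FT.Loc3
import Pool.Agent.W405.RK2.RS

/-!
# RZ-SM: the average of `2 ^ corank` is bounded
-/

set_option autoImplicit false

namespace Pool.Agent.L0h93.RZ

open Finset Pool.Agent.W262.RK Pool.Agent.L0h94.RZ Pool.Agent.L0h5.AG

/-- the weights -/
noncomputable def gab (a b : Bool) (i : Fin 3 × Fin 3) (p : ℕ) : ℝ :=
  (1 / 2) / (p : ℝ) * ((if i = (1, 0) then x4 a p else 1) * (if i = (1, 2) then x4 b p else 1))

lemma x4_prod (a : Bool) {n : ℕ} (hn : Squarefree n) :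
    x4 a n = ∏ p ∈ n.primeFactors, x4 a p := by
  unfold x4
  cases a
  · simp
  · simp only [if_true]
    conv_lhs => rw [← Nat.prod_primeFactors_of_squarefree hn]
    push_cast
    rw [map_prod]
    push_cast
    rfl

lemma abs_x4 (a : Bool) (n : ℕ) : |x4 a n| ≤ 1 := by
  unfold x4
  cases a
  · simp
  · simp only [if_true]
    have h : ∀ x : ZMod 4, ZMod.χ₄ x = 0 ∨ ZMod.χ₄ x = 1 ∨ ZMod.χ₄ x = -1 := by decide
    rcases h (n : ZMod 4) with h | h | h <;> rw [h] <;> norm_num

lemma x4_odd {n : ℕ} (hn : Odd n) : x4 true n = if n % 4 = 3 then -1 else 1 := by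
  unfold x4
  simp only [if_true]
  rw [ZMod.χ₄_nat_eq_if_mod_four]
  have h1 : n % 2 = 1 := Nat.odd_iff.1 hn
  rw [if_neg (by omega)]
  by_cases h : n % 4 = 3
  · rw [if_pos h, if_neg (by omega)]
    norm_num
  · rw [if_neg h, if_pos (by omega)]
    norm_num

/-- the product of the weights -/
lemma gg_gab (a b : Bool) (d : Fin 3 × Fin 3 → ℕ) (hd : ∀ i, Squarefree (d i)) :
    ∏ i, gg (gab a b) i (d i) = (∏ i, (1 / 2 : ℝ) ^ (d i).primeFactors.card / (d i)) *
      (x4 a (d (1, 0)) * x4 b (d (1, 2))) := by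
  have h1 : ∀ i, gg (gab a b) i (d i) = ((1 / 2 : ℝ) ^ (d i).primeFactors.card / (d i)) *
      ((if i = (1, 0) then x4 a (d i) else 1) * (if i = (1, 2) then x4 b (d i) else 1)) := by
    intro i
    unfold gg gab
    rw [prod_mul_distrib, prod_mul_distrib]
    congr 1
    · rw [prod_div_distrib, prod_const]
      congr 1
      rw [← Nat.cast_prod, Nat.prod_primeFactors_of_squarefree (hd i)]
    · congr 1
      · by_cases h : i = (1, 0)
        · simp only [h, if_true]
          rw [← h]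
          exact (x4_prod a (hd i)).symm
        · simp [h]
      · by_cases h : i = (1, 2)
        · simp only [h, if_true]
          rw [← h]
          exact (x4_prod b (hd i)).symm
        · simp [h]
  rw [prod_congr rfl fun i _ => h1 i, prod_mul_distrib, prod_mul_distrib, prod_ite_eq',
    prod_ite_eq', if_pos (mem_univ _), if_pos (mem_univ _)]

/-- the sign in characters -/
lemma sg1_eq (d : Fin 3 × Fin 3 → ℕ) (hd : ∀ i, Odd (d i)) :
    sg1 d = (1 / 2) * (x4 false (d (1, 0)) * x4 false (d (1, 2)) +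
      x4 true (d (1, 0)) * x4 false (d (1, 2)) + x4 false (d (1, 0)) * x4 true (d (1, 2)) -
      x4 true (d (1, 0)) * x4 true (d (1, 2))) := by
  have h0 : ∀ n, x4 false n = 1 := fun n => by simp [x4]
  rw [h0, h0, x4_odd (hd _), x4_odd (hd _)]
  unfold sg1
  by_cases h1 : d (1, 0) % 4 = 3
  · by_cases h2 : d (1, 2) % 4 = 3
    · rw [if_pos ⟨h1, h2⟩, if_pos h1, if_pos h2]
      norm_num
    · rw [if_neg (fun h => h2 h.2), if_pos h1, if_neg h2]
      norm_num
  · rw [if_neg (fun h => h1 h.1), if_neg h1]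
    ring

/-- the combinatorial bound -/
lemma comb6 (o : Bool) (U : Finset (Fin 3 × Fin 3))
    (hU : ∀ i ∈ U, ∀ j ∈ U, LL o i j = LL o j i) : U.card ≤ 6 := by
  have h0 : ∀ (o : Bool) (t : Fin 3), LL o (t, 0) (t + 1, 2) ≠ LL o (t + 1, 2) (t, 0) := by
    decide
  set h : Fin 3 → Fin 3 × Fin 3 := fun t => if (t, (0 : Fin 3)) ∈ U then (t + 1, 2) else (t, 0)
    with hh
  have h1 : ∀ t, h t ∈ Uᶜ := by
    intro t
    rw [mem_compl, hh]
    by_cases ht : (t, (0 : Fin 3)) ∈ U
    · simp only [ht, if_true]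
      intro h2
      exact h0 o t (hU _ ht _ h2)
    · simp only [ht, if_false, not_false_eq_true]
  have h2 : Function.Injective h := by
    intro t t' htt
    simp only [hh] at htt
    split_ifs at htt
    · have := (Prod.mk.inj htt).1
      exact add_right_cancel this
    · have := (Prod.mk.inj htt).2
      exact absurd this (by decide)
    · have := (Prod.mk.inj htt).2
      exact absurd this (by decide)
    · exact (Prod.mk.inj htt).1
  have h3 : (univ.image h).card = 3 := by
    rw [card_image_of_injective _ h2]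
    rfl
  have h4 : univ.image h ⊆ Uᶜ := by
    intro x hx
    obtain ⟨t, -, rfl⟩ := mem_image.1 hx
    exact h1 t
  have h5 := card_le_card h4
  have h6 := card_add_card_compl U
  have h7 : Fintype.card (Fin 3 × Fin 3) = 9 := by decide
  omega

lemma sm_o (hA : S_AVG) (o : Bool) : ∃ z0 : ℕ, ∀ z, z0 ≤ z → ∃ C : ℝ, ∀ y : ℕ, z < y →
    ∑ s ∈ Tup (Fin 3) z y, (1 / ((∏ i, s i : ℕ) : ℝ)) * ((1 / 2) ^ (∏ i, s i).primeFactors.card *
      ∑ E ∈ (∏ i, s i).primeFactors.powerset, (2 : ℝ) ^ corkS o s E) ≤ C * Real.log y ^ 3 := by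
  obtain ⟨z0, hz0⟩ := ag (Fin 3 × Fin 3) (fun _ => 1 / 2) (LL o) 0 3 (fun _ => by norm_num)
    (fun i => by simp [Pool.Agent.L0h94.RZ.LL])
    (fun U hU => by
      rw [sum_const, nsmul_eq_mul]
      have h1 : (U.card : ℝ) ≤ 6 := by exact_mod_cast comb6 o U hU
      linarith)
  refine ⟨z0 + 8, fun z hz => ?_⟩
  obtain ⟨Cm, hCm⟩ := Pool.Agent.L0h94.FT.mert z (by omega)
  have hgle : ∀ (a b : Bool) (i : Fin 3 × Fin 3) (p : ℕ), |gab a b i p| ≤ (1 / 2) / (p : ℝ) := by
    intro a b i p
    unfold gab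
    rw [abs_mul, abs_mul, abs_of_nonneg (by positivity : (0 : ℝ) ≤ 1 / 2 / (p : ℝ))]
    have h1 : |if i = (1, 0) then x4 a p else 1| ≤ 1 := by
      split_ifs
      · exact abs_x4 a p
      · simp
    have h2 : |if i = (1, 2) then x4 b p else 1| ≤ 1 := by
      split_ifs
      · exact abs_x4 b p
      · simp
    have h3 : |if i = (1, 0) then x4 a p else 1| * |if i = (1, 2) then x4 b p else 1| ≤ 1 := by
      have := mul_le_mul h1 h2 (abs_nonneg _) zero_le_one
      rwa [one_mul] at this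
    exact mul_le_of_le_one_right (by positivity) h3
  have hC : ∀ a b : Bool, ∃ C : ℝ, ∀ y, z < y →
      |∑ d ∈ Tup (Fin 3 × Fin 3) z y, (∏ i, gg (gab a b) i (d i)) * Sym (LL o) (fun _ => 1) d| ≤
        C * (Real.log y) ^ (3 : ℝ) := by
    intro a b
    refine hz0 z (by omega) (gab a b) (1 / 2 * Cm) (fun i p _ _ => ?_) (fun i y hy => ?_)
    · have := hgle a b i p
      simpa using this
    · have h1 : ∑ p ∈ PS z y, |gab a b i p| ≤ ∑ p ∈ PS z y, 1 / 2 * ((1 : ℝ) / ((p : ℝ) - 3)) := by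
        refine sum_le_sum fun p hp => (hgle a b i p).trans ?_
        have h4 : (4 : ℝ) ≤ p := by
          have := (mem_PS.1 hp).1.1
          exact_mod_cast (by omega : 4 ≤ p)
        have h5 : (1 : ℝ) / p ≤ 1 / ((p : ℝ) - 3) :=
          one_div_le_one_div_of_le (by linarith) (by linarith)
        calc (1 / 2 : ℝ) / p = 1 / 2 * (1 / p) := by ring
          _ ≤ _ := mul_le_mul_of_nonneg_left h5 (by norm_num)
      rw [← mul_sum] at h1
      have h2 := mul_le_mul_of_nonneg_left (hCm y hy) (by norm_num : (0 : ℝ) ≤ 1 / 2)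
      linarith
  choose C hC using hC
  refine ⟨(1 / 2) * (C false false + C true false + C false true + C true true),
    fun y hy => ?_⟩
  rw [hA o z y (by omega)]
  set T : Bool → Bool → ℝ := fun a b =>
    ∑ d ∈ Tup (Fin 3 × Fin 3) z y, (∏ i, gg (gab a b) i (d i)) * Sym (LL o) (fun _ => 1) d with hT
  have hsum : ∑ d ∈ Tup (Fin 3 × Fin 3) z y,
      (∏ i, (1 / 2 : ℝ) ^ (d i).primeFactors.card / (d i)) *
      (sg1 d * Sym (LL o) (fun _ => 1) d) =
      (1 / 2) * (T false false + T true false + T false true - T true true) := by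
    rw [hT]
    simp only
    rw [← sum_add_distrib, ← sum_add_distrib, ← sum_sub_distrib, mul_sum]
    refine sum_congr rfl fun d hd => ?_
    have hd1 := (Pool.Agent.W405.RK2.mem_Tup.1 hd).1
    have hsq : ∀ i, Squarefree (d i) := fun i =>
      (Pool.Agent.W405.RK2.PP_squarefree z y).squarefree_of_dvd (hd1 i)
    have hodd : ∀ i, Odd (d i) := by
      intro i
      rw [← Nat.not_even_iff_odd, even_iff_two_dvd]
      intro h2
      have h3 := Pool.Agent.W405.RK2.prime_dvd_PP Nat.prime_two (h2.trans (hd1 i))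
      have := (mem_PS.1 h3).1.1
      omega
    rw [gg_gab false false d hsq, gg_gab true false d hsq, gg_gab false true d hsq,
      gg_gab true true d hsq, sg1_eq d hodd]
    ring
  rw [hsum]
  have e1 := abs_le.1 (hC false false y hy)
  have e2 := abs_le.1 (hC true false y hy)
  have e3 := abs_le.1 (hC false true y hy)
  have e4 := abs_le.1 (hC true true y hy)
  have e5 : (Real.log y) ^ (3 : ℝ) = Real.log y ^ 3 := by
    rw [← Real.rpow_natCast]
    norm_num
  rw [e5] at e1 e2 e3 e4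
  have f1 : T false false ≤ C false false * Real.log y ^ 3 := e1.2
  have f2 : T true false ≤ C true false * Real.log y ^ 3 := e2.2
  have f3 : T false true ≤ C false true * Real.log y ^ 3 := e3.2
  have f4 : -(C true true * Real.log y ^ 3) ≤ T true true := e4.1
  linarith

theorem sm (hA : S_AVG) : S_SM := by
  obtain ⟨z1, h1⟩ := sm_o hA false
  obtain ⟨z2, h2⟩ := sm_o hA true
  refine ⟨max z1 z2 + 3, fun z hz => ?_⟩
  obtain ⟨C1, hC1⟩ := h1 z (by omega)
  obtain ⟨C2, hC2⟩ := h2 z (by omega)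
  refine ⟨max C1 C2, fun o y hy => ?_⟩
  have hy1 : (1 : ℝ) ≤ y := by exact_mod_cast (by omega : 1 ≤ y)
  have hl : 0 ≤ Real.log y ^ 3 := pow_nonneg (Real.log_nonneg hy1) 3
  cases o
  · exact (hC1 y hy).trans (mul_le_mul_of_nonneg_right (le_max_left _ _) hl)
  · exact (hC2 y hy).trans (mul_le_mul_of_nonneg_right (le_max_right _ _) hl)

end Pool.Agent.L0h93.RZ
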